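import Pool.Agent.H88.MCR.Stmts

/-!
Board mcr, row CGP: the point fields of `Good` for the clone.
-/

set_option autoImplicit false

namespace Pool.MCR

theorem cgp_lp_inj {L : Type} {a b : L} {i j : ℤ} (h : lp a i = lp b j) : a = b ∧ i = j := by
  have h1 : ((a, i) : L × ℤ) = (b, j) := toLex.injective h
  exact ⟨congrArg Prod.fst h1, congrArg Prod.snd h1⟩

theorem cgp_mem_shift {L : Type} (l : List L) : ∀ (s : Bool) (p : L ×ₗ ℤ), p ∈ shift s l →
    ∃ c ∈ l, ∃ k : ℤ, (k = 1 ∨ k = -1) ∧ p = lp c k := by
  induction l with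
  | nil =>
    intro s p h
    exact absurd h (by simp [shift])
  | cons c t ih =>
    intro s p h
    have h' : p = lp c (if s then 1 else -1) ∨ p ∈ shift (!s) t := by
      have h2 : p ∈ lp c (if s then 1 else -1) :: shift (!s) t := h
      exact List.mem_cons.1 h2
    rcases h' with h' | h'
    · refine ⟨c, List.mem_cons_self, if s then 1 else -1, ?_, h'⟩
      cases s
      · right; rfl
      · left; rfl
    · obtain ⟨d, hd, k, hk, hp⟩ := ih _ _ h'
      exact ⟨d, List.mem_cons_of_mem _ hd, k, hk, hp⟩

theorem cgp_nodup_shift {L : Type} (l : List L) : ∀ s : Bool, l.Nodup → (shift s l).Nodup := by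
  induction l with
  | nil =>
    intro s _
    show ([] : List (L ×ₗ ℤ)).Nodup
    exact List.nodup_nil
  | cons c t ih =>
    intro s h
    show (lp c (if s then 1 else -1) :: shift (!s) t).Nodup
    rw [List.nodup_cons] at h ⊢
    refine ⟨fun hm => ?_, ih _ h.2⟩
    obtain ⟨d, hd, k, -, hp⟩ := cgp_mem_shift t _ _ hm
    rw [(cgp_lp_inj hp).1] at h
    exact h.1 hd

theorem cgp_mem_newE {L : Type} {D : Diag L} {w x : ℕ} {r : ℕ → ℤ} {p : L ×ₗ ℤ}
    (h : p ∈ newE D w r x) : x ≠ w ∧ (p = lp (D.pos w) (- r x) ∨
      ∃ c ∈ D.E w x, ∃ k : ℤ, (k = 1 ∨ k = -1) ∧ p = lp c k) := by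
  unfold newE at h
  by_cases hx : x = w
  · rw [if_pos hx] at h
    exact absurd h List.not_mem_nil
  · rw [if_neg hx] at h
    refine ⟨hx, ?_⟩
    rcases List.mem_append.1 h with h | h
    · left
      by_cases hs : D.S w x = true
      · rw [if_pos hs] at h
        exact List.mem_singleton.1 h
      · rw [if_neg hs] at h
        exact absurd h List.not_mem_nil
    · right
      exact cgp_mem_shift _ _ _ h

theorem cgp_nodup_newE {L : Type} {D : Diag L} {w x : ℕ} {r : ℕ → ℤ}
    (h1 : x ≠ w → (D.E w x).Nodup) (h2 : x ≠ w → D.pos w ∉ D.E w x) : (newE D w r x).Nodup := by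
  unfold newE
  by_cases hx : x = w
  · rw [if_pos hx]
    exact List.nodup_nil
  · rw [if_neg hx]
    by_cases hs : D.S w x = true
    · rw [if_pos hs]
      show (lp (D.pos w) (- r x) :: shift (D.S w x) (D.E w x)).Nodup
      rw [List.nodup_cons]
      refine ⟨fun hm => ?_, cgp_nodup_shift _ _ (h1 hx)⟩
      obtain ⟨d, hd, k, -, hp⟩ := cgp_mem_shift _ _ _ hm
      apply h2 hx
      rw [(cgp_lp_inj hp).1]
      exact hd
    · rw [if_neg hs]
      exact cgp_nodup_shift _ _ (h1 hx)

theorem cgp_thm : CGP_S := by
  intro L _ n D w r hG hw hR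
  have hpos_n : (clone D n w r).pos n = lp (D.pos w) 1 := if_pos rfl
  have hpos : ∀ z, z < n → (clone D n w r).pos z = lp (D.pos z) 0 := fun z hz =>
    if_neg (ne_of_lt hz)
  have hEn : ∀ y, (clone D n w r).E n y = newE D w r y := fun y => if_pos rfl
  have hEn' : ∀ x, x < n → (clone D n w r).E x n = (newE D w r x).reverse := by
    intro x hx
    show (if x = n then newE D w r n else if n = n then (newE D w r x).reverse
      else (D.E x n).map (fun c => lp c 0)) = _
    rw [if_neg (ne_of_lt hx), if_pos rfl]
  have hE : ∀ x y, x < n → y < n →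
      (clone D n w r).E x y = (D.E x y).map (fun c => lp c 0) := by
    intro x y hx hy
    show (if x = n then newE D w r y else if y = n then (newE D w r x).reverse
      else (D.E x y).map (fun c => lp c 0)) = _
    rw [if_neg (ne_of_lt hx), if_neg (ne_of_lt hy)]
  have hlt : ∀ x, x < n + 1 → x = n ∨ x < n := fun x hx => by omega
  -- points of the new edges
  have hnew : ∀ y < n, ∀ z < n + 1, (clone D n w r).pos z ∉ newE D w r y := by
    intro y hy z hz hm
    obtain ⟨hyw, hm⟩ := cgp_mem_newE hm
    have hr := hR.1 y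
    rcases hlt z hz with rfl | hz
    · rw [hpos_n] at hm
      rcases hm with hm | ⟨c, hc, k, hk, hm⟩
      · have := (cgp_lp_inj hm).2
        omega
      · have := (cgp_lp_inj hm).1
        rw [← this] at hc
        exact hG.notin w hw y hy w hw (Ne.symm hyw) hc
    · rw [hpos z hz] at hm
      rcases hm with hm | ⟨c, hc, k, hk, hm⟩
      · have := (cgp_lp_inj hm).2
        omega
      · have := (cgp_lp_inj hm).2
        omega
  refine ⟨?_, ?_, ?_, ?_⟩
  · intro x hx y hy h
    rcases hlt x hx with rfl | hx <;> rcases hlt y hy with rfl | hy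
    · rfl
    · rw [hpos_n, hpos y hy] at h
      exact absurd (cgp_lp_inj h).2 (by norm_num)
    · rw [hpos_n, hpos x hx] at h
      exact absurd (cgp_lp_inj h).2 (by norm_num)
    · rw [hpos x hx, hpos y hy] at h
      exact hG.pos_inj x hx y hy (cgp_lp_inj h).1
  · intro x hx y hy z hz hxy
    rcases hlt x hx with rfl | hx
    · have hy' : y < x := by omega
      rw [hEn]
      exact hnew y hy' z hz
    · rcases hlt y hy with rfl | hy
      · rw [hEn' x hx, List.mem_reverse]
        exact hnew x hx z hz
      · rw [hE x y hx hy, List.mem_map]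
        rintro ⟨c, hc, hm⟩
        rcases hlt z hz with rfl | hz
        · rw [hpos_n] at hm
          exact absurd (cgp_lp_inj hm).2 (by norm_num)
        · rw [hpos z hz] at hm
          rw [(cgp_lp_inj hm).1] at hc
          exact hG.notin x hx y hy z hz hxy hc
  · intro x hx y hy hxy
    have hnd : ∀ y < n, (newE D w r y).Nodup := fun y hy =>
      cgp_nodup_newE (fun h => hG.nodup w hw y hy (Ne.symm h))
        (fun h => hG.notin w hw y hy w hw (Ne.symm h))
    rcases hlt x hx with rfl | hx
    · rw [hEn]
      exact hnd y (by omega)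
    · rcases hlt y hy with rfl | hy
      · rw [hEn' x hx, List.nodup_reverse]
        exact hnd x hx
      · rw [hE x y hx hy]
        exact (hG.nodup x hx y hy hxy).map fun a b h => (cgp_lp_inj h).1
  · intro x hx y hy hxy c hc
    rcases hlt x hx with rfl | hx
    · have hy' : y < x := by omega
      rw [hEn] at hc
      rw [hEn' y hy', List.mem_reverse]
      exact hc
    · rcases hlt y hy with rfl | hy
      · rw [hEn' x hx, List.mem_reverse] at hc
        rw [hEn]
        exact hc
      · rw [hE x y hx hy, List.mem_map] at hc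
        obtain ⟨d, hd, rfl⟩ := hc
        rw [hE y x hy hx, List.mem_map]
        exact ⟨d, hG.symE x hx y hy hxy d hd, rfl⟩

end Pool.MCR
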